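import Pool.Agent.H72.BF.Targets

open Polynomial Finset

namespace Pool.Agent.H77.BF

open Pool.Agent.H72.BF

lemma EE_nonneg_parts (N T L0 : ℕ) (ρ : ℝ) (hN : 1 ≤ N) (hT : 1 ≤ T) (hρ : 0 ≤ ρ) :
    0 ≤ Real.log T ∧ 0 ≤ Real.log N ∧ 0 ≤ ((L0 : ℝ) + 1) * (1 + Real.log (ρ + 2)) ∧
      ((L0 : ℝ) + 1) ≤ ((L0 : ℝ) + 1) * (1 + Real.log (ρ + 2)) ∧ 0 ≤ (N : ℝ) * ρ := by
  have h1 : 0 ≤ Real.log T := Real.log_natCast_nonneg T
  have h2 : 0 ≤ Real.log N := Real.log_natCast_nonneg N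
  have h3 : 0 ≤ Real.log (ρ + 2) := Real.log_nonneg (by linarith)
  have h4 : (0 : ℝ) ≤ (L0 : ℝ) + 1 := by positivity
  refine ⟨h1, h2, by positivity, by nlinarith, by positivity⟩

/-- bound for the derivation part -/
lemma gf_bound (h1 : T_GFS) (b0 c : ℂ) (P : ℂ[X]) (m : ℕ) (z : ℂ) (D : ℝ)
    (hD : ∀ k ≤ m, ‖(derivative^[k] P).eval z‖ ≤ k.factorial * D) (hD0 : 0 ≤ D) :
    ‖(Gf b0 c P m).eval z‖ ≤ m.factorial * (‖b0‖ + ‖c‖) ^ m * D := by
  rw [h1 b0 c P m, eval_finsetSum]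
  refine (norm_sum_le _ _).trans ?_
  have h2 : ∀ k ∈ range (m + 1), ‖(C ((m.choose k : ℂ) * b0 ^ k * c ^ (m - k)) *
      derivative^[k] P).eval z‖ ≤
      (‖b0‖ ^ k * ‖c‖ ^ (m - k) * (m.choose k : ℝ)) * (m.factorial * D) := by
    intro k hk
    have hk' : k ≤ m := Nat.lt_succ_iff.mp (mem_range.mp hk)
    rw [eval_mul, eval_C, norm_mul, norm_mul, norm_mul, norm_pow, norm_pow, Complex.norm_natCast]
    have h3 : ‖(derivative^[k] P).eval z‖ ≤ m.factorial * D := by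
      refine (hD k hk').trans ?_
      apply mul_le_mul_of_nonneg_right _ hD0
      exact_mod_cast Nat.factorial_le hk'
    calc (m.choose k : ℝ) * ‖b0‖ ^ k * ‖c‖ ^ (m - k) * ‖(derivative^[k] P).eval z‖
        ≤ (m.choose k : ℝ) * ‖b0‖ ^ k * ‖c‖ ^ (m - k) * (m.factorial * D) :=
          mul_le_mul_of_nonneg_left h3 (by positivity)
      _ = _ := by ring
  refine (sum_le_sum h2).trans ?_
  rw [← sum_mul, ← add_pow]
  apply le_of_eq; ring

lemma one_add_exp_le {h : ℕ} (hh : 1 ≤ h) : 1 + Real.exp h ≤ Real.exp (2 * h) := by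
  have h1 : (1 : ℝ) ≤ h := by exact_mod_cast hh
  have h2 : (2 : ℝ) ≤ Real.exp h := by
    have := Real.add_one_le_exp (h : ℝ); linarith
  have h3 : Real.exp (2 * h) = Real.exp h * Real.exp h := by rw [← Real.exp_add]; ring_nf
  rw [h3]; nlinarith

/-- size of `b_0`, of the `γ` -/
lemma gam_bound (h3 : T_ROOT) {n δ h : ℕ} {B : LF n} (hh : 1 ≤ h) (hB : Adm δ n h B) {N : ℕ}
    {t : Fin (n + 1) → ℕ} (ht : ∀ j, t j ≤ N) :
    ‖B.b 0‖ ≤ Real.exp (2 * h) ∧ ‖gam B t 0‖ ≤ N * Real.exp (2 * h) ∧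
      ∀ j : Fin n, ‖gam B t j.succ‖ ≤ 2 * N * Real.exp (2 * h) := by
  have hA : (1 : ℝ) ≤ Real.exp h := Real.one_le_exp (Nat.cast_nonneg h)
  have hb : ∀ j, ‖B.b j‖ ≤ Real.exp (2 * h) :=
    fun j => (h3 δ _ _ hA (hB.hb j)).1.trans (one_add_exp_le hh)
  have hs : ‖B.bs‖ ≤ Real.exp (2 * h) := (h3 δ _ _ hA hB.hs).1.trans (one_add_exp_le hh)
  have htc : ∀ j, ‖(t j : ℂ)‖ ≤ N := by
    intro j; rw [Complex.norm_natCast]; exact_mod_cast ht j
  have hE : 0 ≤ Real.exp (2 * (h : ℝ)) := (Real.exp_pos _).le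
  refine ⟨hb 0, ?_, fun j => ?_⟩
  · show ‖-(B.bs * (t 0 : ℂ))‖ ≤ _
    rw [norm_neg, norm_mul]
    calc ‖B.bs‖ * ‖(t 0 : ℂ)‖ ≤ Real.exp (2 * h) * N := mul_le_mul hs (htc 0) (norm_nonneg _) hE
      _ = _ := by ring
  · show ‖B.b 0 * (t j.succ : ℂ) - B.b j.succ * (t 0 : ℂ)‖ ≤ _
    refine (norm_sub_le _ _).trans ?_
    rw [norm_mul, norm_mul]
    have e1 := mul_le_mul (hb 0) (htc j.succ) (norm_nonneg _) hE
    have e2 := mul_le_mul (hb j.succ) (htc 0) (norm_nonneg _) hE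
    linarith

theorem cfb (h1 : T_GFS) (h2 : T_BIN) (h3 : T_ROOT) : T_CFB := by
  intro n δ
  refine ⟨3 * (n + 1), by positivity, ?_⟩
  intro h B hh hB N T L0 ρ hN hT hρ t m μ l z ht hm hμ hl hz
  obtain ⟨q1, q2, q3⟩ := gam_bound h3 hh hB ht
  obtain ⟨e1, e2, e3, e4, e5⟩ := EE_nonneg_parts N T L0 ρ hN hT hρ
  have hh' : (1 : ℝ) ≤ h := by exact_mod_cast hh
  have hN' : (1 : ℝ) ≤ N := by exact_mod_cast hN
  have hT' : (1 : ℝ) ≤ T := by exact_mod_cast hT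
  have h2e : (2 : ℝ) ≤ Real.exp h := by
    have := Real.add_one_le_exp (h : ℝ); linarith
  obtain ⟨D, hD⟩ : ∃ D : ℝ, D = Real.exp (h * ((L0 + 1) * (1 + Real.log (ρ + 2)))) := ⟨_, rfl⟩
  have hD0 : 0 ≤ D := by rw [hD]; exact (Real.exp_pos _).le
  obtain ⟨X, hX⟩ : ∃ X : ℝ, X = Real.exp (Real.log N + 3 * h) := ⟨_, rfl⟩
  have hXN : X = N * (Real.exp h * Real.exp (2 * h)) := by
    rw [hX, Real.exp_add, Real.exp_log (by linarith), ← Real.exp_add]; ring_nf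
  have hX1 : 1 ≤ X := by
    rw [hX]; exact Real.one_le_exp (by positivity)
  have hE2 : 0 < Real.exp (2 * (h : ℝ)) := Real.exp_pos _
  have hNE : 0 ≤ (N : ℝ) * Real.exp (2 * h) := by positivity
  have hg0 : ‖B.b 0‖ + ‖gam B t 0‖ ≤ X := by
    have : Real.exp (2 * (h : ℝ)) ≤ N * Real.exp (2 * h) := by nlinarith
    calc ‖B.b 0‖ + ‖gam B t 0‖ ≤ 2 * (N * Real.exp (2 * h)) := by linarith
      _ ≤ Real.exp h * (N * Real.exp (2 * h)) := mul_le_mul_of_nonneg_right h2e hNE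
      _ = X := by rw [hXN]; ring
  have hgj : ∀ j : Fin n, ‖gam B t j.succ‖ ≤ X := by
    intro j
    calc ‖gam B t j.succ‖ ≤ 2 * (N * Real.exp (2 * h)) := by linarith [q3 j]
      _ ≤ Real.exp h * (N * Real.exp (2 * h)) := mul_le_mul_of_nonneg_right h2e hNE
      _ = X := by rw [hXN]; ring
  have hG : ‖(Gf (B.b 0) (gam B t 0) (RP h μ l) (m 0)).eval z‖ ≤
      Real.exp (T * Real.log T) * X ^ T * D := by
    refine (gf_bound h1 (B.b 0) (gam B t 0) (RP h μ l) (m 0) z D (fun k _ => ?_) hD0).trans ?_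
    · rw [hD]
      exact h2 h μ l L0 k ρ z hh hμ hl hρ hz
    · apply mul_le_mul_of_nonneg_right _ hD0
      apply mul_le_mul
      · have f1 : ((m 0).factorial : ℝ) ≤ (T : ℝ) ^ T := by
          have f2 : (m 0).factorial ≤ T ^ T :=
            (Nat.factorial_le (hm 0)).trans (Nat.factorial_le_pow T)
          exact_mod_cast f2
        refine f1.trans (le_of_eq ?_)
        rw [← Real.rpow_natCast, Real.rpow_def_of_pos (by linarith), mul_comm]
      · calc (‖B.b 0‖ + ‖gam B t 0‖) ^ m 0 ≤ X ^ m 0 :=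
              pow_le_pow_left₀ (by positivity) hg0 _
          _ ≤ X ^ T := pow_le_pow_right₀ hX1 (hm 0)
      · positivity
      · exact (Real.exp_pos _).le
  have hP : ‖∏ j : Fin n, gam B t j.succ ^ m j.succ‖ ≤ X ^ (T * n) := by
    rw [norm_prod]
    calc ∏ j : Fin n, ‖gam B t j.succ ^ m j.succ‖ ≤ ∏ _j : Fin n, X ^ T := by
          apply prod_le_prod (fun j _ => norm_nonneg _)
          intro j _
          rw [norm_pow]
          calc ‖gam B t j.succ‖ ^ m j.succ ≤ X ^ m j.succ :=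
                pow_le_pow_left₀ (norm_nonneg _) (hgj j) _
            _ ≤ X ^ T := pow_le_pow_right₀ hX1 (hm _)
      _ = X ^ (T * n) := by
          rw [prod_const, card_univ, Fintype.card_fin, ← pow_mul]
  unfold cf
  rw [norm_mul]
  calc ‖(Gf (B.b 0) (gam B t 0) (RP h μ l) (m 0)).eval z‖ * ‖∏ j : Fin n, gam B t j.succ ^ m j.succ‖
      ≤ (Real.exp (T * Real.log T) * X ^ T * D) * X ^ (T * n) :=
        mul_le_mul hG hP (norm_nonneg _) (by positivity)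
    _ = Real.exp (T * Real.log T + (T * (n + 1) : ℕ) * (Real.log N + 3 * h) +
          h * ((L0 + 1) * (1 + Real.log (ρ + 2)))) := by
        have k1 : X ^ T * X ^ (T * n) =
            Real.exp (((T * (n + 1) : ℕ) : ℝ) * (Real.log N + 3 * h)) := by
          rw [Real.exp_nat_mul, ← hX, ← pow_add]
          congr 1
          ring
        rw [Real.exp_add, Real.exp_add, ← k1, hD]
        ring
    _ ≤ _ := by
        apply Real.exp_le_exp.mpr
        push_cast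
        unfold EE
        have hn0 : (0 : ℝ) ≤ n := Nat.cast_nonneg n
        obtain ⟨LT, hLT⟩ : ∃ LT : ℝ, LT = Real.log T := ⟨_, rfl⟩
        obtain ⟨LN, hLN⟩ : ∃ LN : ℝ, LN = Real.log N := ⟨_, rfl⟩
        obtain ⟨Q, hQ⟩ : ∃ Q : ℝ, Q = ((L0 : ℝ) + 1) * (1 + Real.log (ρ + 2)) := ⟨_, rfl⟩
        rw [← hQ] at e3 ⊢
        rw [← hLT] at e1 ⊢
        rw [← hLN] at e2 ⊢
        have g1 : (T : ℝ) * LT ≤ 3 * (n + 1) * (h * (T * LT)) := by
          have : 0 ≤ (T : ℝ) * LT := by positivity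
          have : (T : ℝ) * LT ≤ h * (T * LT) := by nlinarith
          nlinarith [mul_nonneg hn0 (by positivity : 0 ≤ (h : ℝ) * (T * LT))]
        have g2 : (T : ℝ) * (n + 1) * LN ≤ 3 * (n + 1) * (h * (T * LN)) := by
          have k1 : 0 ≤ (T : ℝ) * LN := by positivity
          have k2 : (T : ℝ) * LN ≤ h * (T * LN) := by nlinarith
          have k3 : 0 ≤ (n + 1) * ((h : ℝ) * (T * LN)) := by positivity
          nlinarith [mul_le_mul_of_nonneg_left k2 (by positivity : (0 : ℝ) ≤ (n : ℝ) + 1)]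
        have g3 : (h : ℝ) * Q ≤ 3 * (n + 1) * (h * Q) := by
          have : 0 ≤ (h : ℝ) * Q := by positivity
          nlinarith [mul_nonneg hn0 this]
        have g4 : 0 ≤ 3 * ((n : ℝ) + 1) * (h * (N * ρ)) := by positivity
        calc (T : ℝ) * LT + T * (n + 1) * (LN + 3 * h) + h * Q
            = T * LT + T * (n + 1) * LN + 3 * (n + 1) * (h * T) + h * Q := by ring
          _ ≤ 3 * (n + 1) * (h * (T * LT)) + 3 * (n + 1) * (h * (T * LN)) +
              3 * (n + 1) * (h * T) + 3 * (n + 1) * (h * Q) + 3 * ((n : ℝ) + 1) * (h * (N * ρ)) := by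
              linarith
          _ = _ := by ring

end Pool.Agent.H77.BF
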