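import Pool.Agent.H77.BF.CFB

open Polynomial Finset

namespace Pool.Agent.H77.BF

open Pool.Agent.H72.BF

/-- size of the index set -/
lemma card_idx_le (n N h L0 T : ℕ) (ρ : ℝ) (hh : 1 ≤ h) (hN : 1 ≤ N) (hT : 1 ≤ T) (hρ : 0 ≤ ρ) :
    ((Fintype.card (Idx n N h L0) : ℕ) : ℝ) ≤ Real.exp ((n + 3) * (h * EE N T L0 ρ)) := by
  obtain ⟨e1, e2, e3, e4, e5⟩ := EE_nonneg_parts N T L0 ρ hN hT hρ
  have hh' : (1 : ℝ) ≤ h := by exact_mod_cast hh
  have hN' : (1 : ℝ) ≤ N := by exact_mod_cast hN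
  have hT' : (1 : ℝ) ≤ T := by exact_mod_cast hT
  have hn0 : (0 : ℝ) ≤ n := Nat.cast_nonneg n
  have hL : (0 : ℝ) ≤ L0 := Nat.cast_nonneg L0
  have hc : ((Fintype.card (Idx n N h L0) : ℕ) : ℝ) = (N : ℝ) ^ (n + 1) * (h * (L0 + 1)) := by
    simp [Idx, Fintype.card_prod, Fintype.card_fin, Fintype.card_fun]
  have h1 : (N : ℝ) ^ (n + 1) = Real.exp (((n + 1 : ℕ) : ℝ) * Real.log N) := by
    rw [Real.exp_nat_mul, Real.exp_log (by linarith)]
  have h2 : (h : ℝ) ≤ Real.exp h := by linarith [Real.add_one_le_exp (h : ℝ)]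
  have h3 : (L0 : ℝ) + 1 ≤ Real.exp (L0 + 1) := by linarith [Real.add_one_le_exp ((L0 : ℝ) + 1)]
  rw [hc, h1]
  have h4 : (h : ℝ) * (L0 + 1) ≤ Real.exp h * Real.exp (L0 + 1) :=
    mul_le_mul h2 h3 (by positivity) (Real.exp_pos _).le
  refine (mul_le_mul_of_nonneg_left h4 (Real.exp_pos _).le).trans ?_
  rw [← Real.exp_add, ← Real.exp_add]
  apply Real.exp_le_exp.mpr
  push_cast
  unfold EE
  obtain ⟨LT, hLT⟩ : ∃ LT : ℝ, LT = Real.log T := ⟨_, rfl⟩
  obtain ⟨LN, hLN⟩ : ∃ LN : ℝ, LN = Real.log N := ⟨_, rfl⟩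
  obtain ⟨Q, hQ⟩ : ∃ Q : ℝ, Q = ((L0 : ℝ) + 1) * (1 + Real.log (ρ + 2)) := ⟨_, rfl⟩
  rw [← hQ] at e3 e4 ⊢
  rw [← hLT] at e1 ⊢
  rw [← hLN] at e2 ⊢
  have k1 : LN ≤ h * (T * LN) := by
    have a1 : LN ≤ T * LN := by nlinarith
    have a2 : 0 ≤ (T : ℝ) * LN := by positivity
    nlinarith
  have k2 : (h : ℝ) ≤ h * T := by nlinarith
  have k3 : (L0 : ℝ) + 1 ≤ h * Q := by nlinarith
  have k4 : 0 ≤ (h : ℝ) * (T * LT) := by positivity
  have k5 : 0 ≤ (h : ℝ) * (T * LN) := by positivity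
  have k6 : 0 ≤ (h : ℝ) * Q := by positivity
  have k7 : 0 ≤ (h : ℝ) * (N * ρ) := by positivity
  have k8 : 0 ≤ (h : ℝ) * T := by positivity
  have k9 : ((n : ℝ) + 1) * LN ≤ (n + 3) * (h * (T * LN)) := by nlinarith
  have k10 : (h : ℝ) ≤ (n + 3) * (h * T) := by nlinarith
  have k11 : (L0 : ℝ) + 1 ≤ (n + 3) * (h * Q) := by nlinarith
  have k12 : 0 ≤ ((n : ℝ) + 3) * (h * (T * LT)) := by positivity
  have k13 : 0 ≤ ((n : ℝ) + 3) * (h * (N * ρ)) := by positivity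
  calc ((n : ℝ) + 1) * LN + (h + (L0 + 1)) ≤ (n + 3) * (h * (T * LN)) + (n + 3) * (h * T) +
        (n + 3) * (h * Q) + (n + 3) * (h * (T * LT)) + (n + 3) * (h * (N * ρ)) := by linarith
    _ = _ := by ring

theorem cmp (h1 : T_CFB) (h2 : T_EXF) : T_CMP := by
  intro n lam δ
  obtain ⟨c, hc, hcf⟩ := h1 n δ
  obtain ⟨Λ, hΛ⟩ : ∃ Λ : ℝ, Λ = ∑ j, ‖lam j‖ := ⟨_, rfl⟩
  have hΛ0 : 0 ≤ Λ := by rw [hΛ]; exact sum_nonneg (fun j _ => norm_nonneg _)
  refine ⟨(n + 3) + c + Λ + 2, by positivity, ?_⟩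
  intro h B hh hB N T L0 ρ hN hT hρ p P hp m hm s hs hv
  obtain ⟨e1, e2, e3, e4, e5⟩ := EE_nonneg_parts N T L0 ρ hN hT hρ
  have hh' : (1 : ℝ) ≤ h := by exact_mod_cast hh
  have hN' : (1 : ℝ) ≤ N := by exact_mod_cast hN
  have hT' : (1 : ℝ) ≤ T := by exact_mod_cast hT
  obtain ⟨v, hvd⟩ : ∃ v : ℂ, v = B.val lam / B.b 0 := ⟨_, rfl⟩
  rw [← hvd] at hv ⊢
  have hu0 : Nonempty (Idx n N h L0) := ⟨(fun _ => ⟨0, hN⟩, ⟨0, hh⟩, ⟨0, Nat.succ_pos _⟩)⟩
  have hP : 0 ≤ P := (abs_nonneg _).trans (hp hu0.some)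
  obtain ⟨E, hE⟩ : ∃ E : ℝ, E = h * EE N T L0 ρ := ⟨_, rfl⟩
  have hρh : 0 ≤ ρ * (h : ℝ) := by positivity
  have hNE : (N : ℝ) * (ρ * h) ≤ E := by
    rw [hE]; unfold EE
    have k1 : 0 ≤ (h : ℝ) * (T * (1 + Real.log T + Real.log N)) := by positivity
    have k2 : 0 ≤ (h : ℝ) * (((L0 : ℝ) + 1) * (1 + Real.log (ρ + 2))) := by positivity
    nlinarith
  have hcard := card_idx_le n N h L0 T ρ hh hN hT hρ
  rw [← hE] at hcard ⊢
  -- one term
  have hterm : ∀ u : Idx n N h L0, ‖(p u : ℂ) * cf B h (tt u) u.2.1 u.2.2 m s *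
      Complex.exp (ex lam B (tt u) * s) - (p u : ℂ) * cf B h (tt u) u.2.1 u.2.2 m (s : ℂ) *
      ∏ j, Complex.exp (lam j) ^ (tt u j * s)‖ ≤
      P * Real.exp (c * E) * Real.exp (Λ * E) * (Real.exp (2 * E) * ‖v‖) := by
    intro u
    have ht : ∀ j, tt u j ≤ N := fun j => (u.1 j).isLt.le
    have hexp : Complex.exp (ex lam B (tt u) * s) =
        (∏ j, Complex.exp (lam j) ^ (tt u j * s)) * Complex.exp (-((tt u 0 : ℂ) * s * v)) := by
      rw [h2 n lam B (tt u) hB.h0, ← hvd]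
      have : ∀ j, Complex.exp (lam j) ^ (tt u j * s) = Complex.exp ((tt u j : ℂ) * lam j * s) := by
        intro j
        rw [← Complex.exp_nat_mul]
        congr 1
        push_cast
        ring
      rw [prod_congr rfl (fun j _ => this j), ← Complex.exp_sum, ← Complex.exp_add]
      congr 1
      rw [← sum_mul]
      ring
    have hw : ‖-((tt u 0 : ℂ) * s * v)‖ ≤ N * (ρ * h) * ‖v‖ := by
      rw [norm_neg, norm_mul, norm_mul, Complex.norm_natCast, Complex.norm_natCast]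
      apply mul_le_mul_of_nonneg_right _ (norm_nonneg _)
      exact mul_le_mul (by exact_mod_cast ht 0) hs (Nat.cast_nonneg _) (by positivity)
    have hw1 : ‖Complex.exp (-((tt u 0 : ℂ) * s * v)) - 1‖ ≤ Real.exp (2 * E) * ‖v‖ := by
      refine (Complex.norm_exp_sub_one_le (hw.trans hv)).trans ?_
      calc 2 * ‖-((tt u 0 : ℂ) * s * v)‖ ≤ 2 * (N * (ρ * h) * ‖v‖) :=
            mul_le_mul_of_nonneg_left hw zero_le_two
        _ = (2 * (N * (ρ * h))) * ‖v‖ := by ring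
        _ ≤ Real.exp (2 * E) * ‖v‖ := by
            apply mul_le_mul_of_nonneg_right _ (norm_nonneg _)
            linarith [Real.add_one_le_exp (2 * E)]
    have hpr : ‖∏ j, Complex.exp (lam j) ^ (tt u j * s)‖ ≤ Real.exp (Λ * E) := by
      rw [norm_prod]
      have h5 : ∀ j : Fin (n + 1), ‖Complex.exp (lam j) ^ (tt u j * s)‖ ≤
          Real.exp (‖lam j‖ * (N * (ρ * h))) := by
        intro j
        rw [← Complex.exp_nat_mul, Complex.norm_exp]
        apply Real.exp_le_exp.mpr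
        refine (Complex.re_le_norm _).trans ?_
        rw [norm_mul, Complex.norm_natCast, mul_comm]
        apply mul_le_mul_of_nonneg_left _ (norm_nonneg _)
        push_cast
        exact mul_le_mul (by exact_mod_cast ht j) hs (Nat.cast_nonneg _) (by positivity)
      refine (prod_le_prod (fun j _ => norm_nonneg _) (fun j _ => h5 j)).trans ?_
      rw [← Real.exp_sum, ← sum_mul, ← hΛ]
      apply Real.exp_le_exp.mpr
      exact mul_le_mul_of_nonneg_left hNE hΛ0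
    have hcfu : ‖cf B h (tt u) u.2.1 u.2.2 m (s : ℂ)‖ ≤ Real.exp (c * E) := by
      rw [hE]
      apply hcf h B hh hB N T L0 ρ hN hT hρ (tt u) m u.2.1 u.2.2 s ht hm
      · exact u.2.1.isLt.le
      · exact Nat.lt_succ_iff.mp u.2.2.isLt
      · rw [Complex.norm_natCast]; exact hs
    have hpu : ‖(p u : ℂ)‖ ≤ P := by
      rw [Complex.norm_intCast]; exact hp u
    rw [hexp]
    have e6 : (p u : ℂ) * cf B h (tt u) u.2.1 u.2.2 m s *
        ((∏ j, Complex.exp (lam j) ^ (tt u j * s)) * Complex.exp (-((tt u 0 : ℂ) * s * v))) -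
        (p u : ℂ) * cf B h (tt u) u.2.1 u.2.2 m (s : ℂ) *
        ∏ j, Complex.exp (lam j) ^ (tt u j * s) =
        (p u : ℂ) * cf B h (tt u) u.2.1 u.2.2 m s * (∏ j, Complex.exp (lam j) ^ (tt u j * s)) *
        (Complex.exp (-((tt u 0 : ℂ) * s * v)) - 1) := by ring
    rw [e6, norm_mul, norm_mul, norm_mul]
    apply mul_le_mul _ hw1 (norm_nonneg _) (by positivity)
    apply mul_le_mul _ hpr (norm_nonneg _) (by positivity)
    exact mul_le_mul hpu hcfu (norm_nonneg _) hP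
  have hsub : Phi lam B p m s - qq lam B p m s =
      ∑ u : Idx n N h L0, ((p u : ℂ) * cf B h (tt u) u.2.1 u.2.2 m s *
      Complex.exp (ex lam B (tt u) * s) - (p u : ℂ) * cf B h (tt u) u.2.1 u.2.2 m (s : ℂ) *
      ∏ j, Complex.exp (lam j) ^ (tt u j * s)) := by
    unfold Phi qq
    rw [← sum_sub_distrib]
  rw [hsub]
  refine (norm_sum_le _ _).trans ?_
  refine (sum_le_sum (fun u _ => hterm u)).trans ?_
  rw [sum_const, card_univ, nsmul_eq_mul]
  calc ((Fintype.card (Idx n N h L0) : ℕ) : ℝ) *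
        (P * Real.exp (c * E) * Real.exp (Λ * E) * (Real.exp (2 * E) * ‖v‖))
      ≤ Real.exp ((n + 3) * E) *
        (P * Real.exp (c * E) * Real.exp (Λ * E) * (Real.exp (2 * E) * ‖v‖)) :=
        mul_le_mul_of_nonneg_right hcard (by positivity)
    _ = P * (Real.exp ((n + 3) * E) * Real.exp (c * E) * Real.exp (Λ * E) * Real.exp (2 * E)) *
        ‖v‖ := by ring
    _ = _ := by
        rw [← Real.exp_add, ← Real.exp_add, ← Real.exp_add]
        congr 3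
        ring

end Pool.Agent.H77.BF
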