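import Pool.Agent.H72.BF.Targets

open Polynomial Finset

namespace Pool.Agent.H77.BF

open Pool.Agent.H72.BF

lemma cf_zero {n : ℕ} (B : LF n) (h : ℕ) (t : Fin (n + 1) → ℕ) (μ l : ℕ)
    (m : Fin (n + 1) → ℕ) (z : ℂ) :
    cf B h t μ l (m + Pi.single 0 1) z =
      (B.b 0 * (derivative (Gf (B.b 0) (gam B t 0) (RP h μ l) (m 0))).eval z +
        gam B t 0 * (Gf (B.b 0) (gam B t 0) (RP h μ l) (m 0)).eval z) *
        ∏ j : Fin n, gam B t j.succ ^ m j.succ := by
  unfold cf
  congr 1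
  · rw [Pi.add_apply, Pi.single_eq_same]
    show (C (B.b 0) * derivative (Gf (B.b 0) (gam B t 0) (RP h μ l) (m 0)) +
      C (gam B t 0) * Gf (B.b 0) (gam B t 0) (RP h μ l) (m 0)).eval z = _
    rw [eval_add, eval_mul, eval_mul, eval_C, eval_C]

lemma cf_succ {n : ℕ} (B : LF n) (h : ℕ) (t : Fin (n + 1) → ℕ) (μ l : ℕ)
    (m : Fin (n + 1) → ℕ) (i : Fin n) (z : ℂ) :
    cf B h t μ l (m + Pi.single i.succ 1) z = gam B t i.succ * cf B h t μ l m z := by
  unfold cf
  have h0 : (m + Pi.single i.succ 1 : Fin (n + 1) → ℕ) 0 = m 0 := by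
    rw [Pi.add_apply, Pi.single_eq_of_ne (Fin.succ_ne_zero i).symm, add_zero]
  have h1 : ∏ j : Fin n, gam B t j.succ ^ (m + Pi.single i.succ 1 : Fin (n + 1) → ℕ) j.succ =
      gam B t i.succ * ∏ j : Fin n, gam B t j.succ ^ m j.succ := by
    have h2 : ∀ j : Fin n, gam B t j.succ ^ (m + Pi.single i.succ 1 : Fin (n + 1) → ℕ) j.succ =
        gam B t j.succ ^ m j.succ * (if j = i then gam B t j.succ else 1) := by
      intro j
      rw [Pi.add_apply]
      by_cases hj : j = i
      · subst hj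
        rw [Pi.single_eq_same, if_pos rfl, pow_succ]
      · rw [Pi.single_eq_of_ne (fun hc => hj (Fin.succ_injective n hc)), add_zero, if_neg hj,
          mul_one]
    rw [prod_congr rfl (fun j _ => h2 j), prod_mul_distrib, prod_ite_eq']
    simp only [mem_univ, if_true]
    ring
  rw [h0, h1]
  ring

/-- the algebra behind the differentiation rule -/
lemma cf_sum {n : ℕ} (lam : Fin (n + 1) → ℂ) (B : LF n) (h0 : B.b 0 ≠ 0) (h : ℕ)
    (t : Fin (n + 1) → ℕ) (μ l : ℕ) (m : Fin (n + 1) → ℕ) (z : ℂ) :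
    (B.b 0)⁻¹ * ∑ j, eta lam j * cf B h t μ l (m + Pi.single j 1) z =
      (derivative (Gf (B.b 0) (gam B t 0) (RP h μ l) (m 0))).eval z *
        (∏ j : Fin n, gam B t j.succ ^ m j.succ) + ex lam B t * cf B h t μ l m z := by
  rw [Fin.sum_univ_succ, cf_zero]
  simp only [cf_succ]
  have hx : ex lam B t = (B.b 0)⁻¹ * (gam B t 0 + ∑ j : Fin n, eta lam j.succ * gam B t j.succ) := by
    unfold ex
    rw [Fin.sum_univ_succ]
    have : eta lam 0 = 1 := rfl
    rw [this, one_mul]
    ring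
  rw [hx]
  have he : eta lam 0 = 1 := rfl
  rw [he, one_mul]
  have h1 : ∑ i : Fin n, eta lam i.succ * (gam B t i.succ * cf B h t μ l m z) =
      (∑ i : Fin n, eta lam i.succ * gam B t i.succ) * cf B h t μ l m z := by
    rw [sum_mul]
    apply sum_congr rfl
    intro i _
    ring
  rw [h1]
  unfold cf
  field_simp
  ring

theorem dif : T_DIF := by
  intro n N h L0 lam B p h0 m z
  have hterm : ∀ u : Idx n N h L0, HasDerivAt (fun z : ℂ => (p u : ℂ) *
      cf B h (tt u) u.2.1 u.2.2 m z * Complex.exp (ex lam B (tt u) * z))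
      ((p u : ℂ) * ((derivative (Gf (B.b 0) (gam B (tt u) 0) (RP h u.2.1 u.2.2) (m 0))).eval z *
        (∏ j : Fin n, gam B (tt u) j.succ ^ m j.succ)) * Complex.exp (ex lam B (tt u) * z) +
        (p u : ℂ) * cf B h (tt u) u.2.1 u.2.2 m z *
          (Complex.exp (ex lam B (tt u) * z) * (ex lam B (tt u) * 1))) z := by
    intro u
    apply HasDerivAt.mul
    · apply HasDerivAt.const_mul
      unfold cf
      apply HasDerivAt.mul_const
      exact Polynomial.hasDerivAt _ z
    · apply HasDerivAt.cexp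
      exact (hasDerivAt_id z).const_mul _
  have hsum := HasDerivAt.fun_sum (u := univ) (fun u _ => hterm u)
  have hfun : Phi lam B p m = fun z : ℂ => ∑ u : Idx n N h L0, (p u : ℂ) *
      cf B h (tt u) u.2.1 u.2.2 m z * Complex.exp (ex lam B (tt u) * z) := rfl
  rw [hfun]
  refine hsum.congr_deriv (Eq.symm ?_)
  unfold Phi
  have h1 : ∀ j, eta lam j * ∑ u : Idx n N h L0, (p u : ℂ) *
      cf B h (tt u) u.2.1 u.2.2 (m + Pi.single j 1) z * Complex.exp (ex lam B (tt u) * z) =
      ∑ u : Idx n N h L0, (p u : ℂ) * Complex.exp (ex lam B (tt u) * z) *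
        (eta lam j * cf B h (tt u) u.2.1 u.2.2 (m + Pi.single j 1) z) := by
    intro j
    rw [mul_sum]
    apply sum_congr rfl
    intro u _
    ring
  rw [sum_congr rfl (fun j _ => h1 j), sum_comm, mul_sum]
  apply sum_congr rfl
  intro u _
  rw [← mul_sum, mul_left_comm, cf_sum lam B h0]
  ring

end Pool.Agent.H77.BF
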